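import Pool.Agent.Lib.helper19.StatFilter

set_option autoImplicit false

namespace Pool.Agent.Results.MP_d359f0_an.No

open Filter Set

theorem result : ∃ F : Filter ℕ, F.NeBot ∧ F ≤ cofinite ∧
    (∀ 𝒜 : Set (Set ℕ), (∀ A ∈ 𝒜, Aᶜ ∉ F) → 𝒜.Pairwise (fun A B => (A ∩ B)ᶜ ∈ F) →
      𝒜.Countable) ∧
    ∀ μ : Set ℕ → ℝ, (∀ A, 0 ≤ μ A) → (∀ A B, Disjoint A B → μ (A ∪ B) = μ A + μ B) →
      μ univ = 1 → (∀ k, μ {k} = 0) → ¬ ∀ A, A ∈ F ↔ μ A = 1 := by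
  obtain ⟨F, h1, h2, h3, h4⟩ := Pool.Agent.Lib.helper19.StatFilter.exists_poor
  exact ⟨F, h1, h2, h3, fun μ a b c d => h4 μ ⟨a, b, c, d⟩⟩

end Pool.Agent.Results.MP_d359f0_an.No
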